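import Mathlib
import Pool.Agent.Q64.RL.Stm

set_option autoImplicit false

open Finset MvPolynomial

namespace Pool.Agent.Q280.RL

open Pool.Agent.Q64.RL

theorem sum_zero_split {k ι : Type} [Field k] [Fintype ι] [DecidableEq ι] (B : Finset ι)
    (f : ι → k) : ∑ i, f i = ∑ i ∈ B, f i + ∑ i ∈ Bᶜ, f i :=
  (Finset.sum_add_sum_compl B f).symm

theorem coo : S_coo := by
  intro k ι _ _ _ L B hB
  choose f hfL hf using fun i : ι => hB.2 (Pi.single i 1)
  -- every vector is a combination
  have hcomb : ∀ v ∈ L, v = ∑ i ∈ B, v i • f i := by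
    intro v hv
    have h1 : v - ∑ i ∈ B, v i • f i = 0 := by
      apply hB.1
      · exact L.sub_mem hv (L.sum_mem fun i _ => L.smul_mem _ (hfL i))
      · intro j hj
        simp only [Pi.sub_apply, Finset.sum_apply, Pi.smul_apply, smul_eq_mul]
        rw [Finset.sum_eq_single j]
        · rw [hf j j hj]; simp
        · intro i _ hij
          rw [hf i j hj, Pi.single_eq_of_ne (Ne.symm hij), mul_zero]
        · intro h; exact absurd hj h
    exact sub_eq_zero.1 h1
  refine ⟨fun j i => f i j, fun E _ _ x w => ⟨⟨?_, ?_⟩, ⟨?_, ?_⟩⟩⟩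
  · intro hx j hj
    let a : ι → k := fun l => if l ∈ B then - f l j else if l = j then 1 else 0
    have ha : ∀ v ∈ L, ∑ i, v i * a i = 0 := by
      intro v hv
      have h2 : v j = ∑ i ∈ B, v i * f i j := by
        have := congrFun (hcomb v hv) j
        simpa [Finset.sum_apply] using this
      rw [sum_zero_split B]
      have e1 : ∑ i ∈ B, v i * a i = - ∑ i ∈ B, v i * f i j := by
        rw [← Finset.sum_neg_distrib]
        refine Finset.sum_congr rfl fun i hi => ?_
        simp only [a, if_pos hi]; ring
      have e2 : ∑ i ∈ Bᶜ, v i * a i = v j := by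
        rw [Finset.sum_eq_single j]
        · simp [a, hj]
        · intro i hi hij
          have : i ∉ B := Finset.mem_compl.1 hi
          simp [a, this, hij]
        · intro h
          exact absurd (Finset.mem_compl.2 hj) h
      rw [e1, e2, h2]; ring
    have h3 := hx a ha
    rw [sum_zero_split B] at h3
    have e1 : ∑ i ∈ B, algebraMap k E (a i) * x i = - ∑ i ∈ B, algebraMap k E (f i j) * x i := by
      rw [← Finset.sum_neg_distrib]
      refine Finset.sum_congr rfl fun i hi => ?_
      simp only [a, if_pos hi, map_neg]; ring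
    have e2 : ∑ i ∈ Bᶜ, algebraMap k E (a i) * x i = x j := by
      rw [Finset.sum_eq_single j]
      · simp [a, hj]
      · intro i hi hij
        have : i ∉ B := Finset.mem_compl.1 hi
        simp [a, this, hij]
      · intro h
        exact absurd (Finset.mem_compl.2 hj) h
    rw [e1, e2] at h3
    linear_combination h3
  · intro hx a ha
    have h1 : ∀ i ∈ B, a i = - ∑ j ∈ Bᶜ, f i j * a j := by
      intro i hi
      have h2 := ha (f i) (hfL i)
      rw [sum_zero_split B] at h2
      have e1 : ∑ j ∈ B, f i j * a j = a i := by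
        rw [Finset.sum_eq_single i]
        · rw [hf i i hi]; simp
        · intro j hj hij
          rw [hf i j hj, Pi.single_eq_of_ne hij, zero_mul]
        · intro h; exact absurd hi h
      rw [e1] at h2
      linear_combination h2
    rw [sum_zero_split B]
    have e2 : ∑ i ∈ B, algebraMap k E (a i) * x i =
        - ∑ i ∈ B, ∑ j ∈ Bᶜ, algebraMap k E (f i j) * algebraMap k E (a j) * x i := by
      rw [← Finset.sum_neg_distrib]
      refine Finset.sum_congr rfl fun i hi => ?_
      rw [h1 i hi, map_neg, map_sum, neg_mul, Finset.sum_mul]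
      simp only [map_mul]
    have e3 : ∑ j ∈ Bᶜ, algebraMap k E (a j) * x j =
        ∑ j ∈ Bᶜ, ∑ i ∈ B, algebraMap k E (f i j) * algebraMap k E (a j) * x i := by
      refine Finset.sum_congr rfl fun j hj => ?_
      rw [hx j (Finset.mem_compl.1 hj), Finset.mul_sum]
      refine Finset.sum_congr rfl fun i _ => ?_
      ring
    rw [e2, e3, Finset.sum_comm]
    ring
  · intro hw i hi
    have h1 := hw (f i) (hfL i)
    rw [sum_zero_split B] at h1
    have e1 : ∑ j ∈ B, algebraMap k E (f i j) * w j = w i := by
      rw [Finset.sum_eq_single i]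
      · rw [hf i i hi]; simp
      · intro j hj hij
        rw [hf i j hj, Pi.single_eq_of_ne hij, map_zero, zero_mul]
      · intro h; exact absurd hi h
    rw [e1] at h1
    linear_combination h1
  · intro hw v hv
    have h2 : ∀ j, v j = ∑ i ∈ B, v i * f i j := by
      intro j
      have := congrFun (hcomb v hv) j
      simpa [Finset.sum_apply] using this
    rw [sum_zero_split B]
    have e2 : ∑ i ∈ B, algebraMap k E (v i) * w i =
        - ∑ i ∈ B, ∑ j ∈ Bᶜ, algebraMap k E (v i) * algebraMap k E (f i j) * w j := by
      rw [← Finset.sum_neg_distrib]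
      refine Finset.sum_congr rfl fun i hi => ?_
      rw [hw i hi, mul_neg, Finset.mul_sum]
      congr 1
      refine Finset.sum_congr rfl fun j _ => ?_
      ring
    have e3 : ∑ j ∈ Bᶜ, algebraMap k E (v j) * w j =
        ∑ j ∈ Bᶜ, ∑ i ∈ B, algebraMap k E (v i) * algebraMap k E (f i j) * w j := by
      refine Finset.sum_congr rfl fun j hj => ?_
      conv_lhs => rw [h2 j]
      rw [map_sum, Finset.sum_mul]
      simp only [map_mul]
    rw [e2, e3, Finset.sum_comm]
    ring

end Pool.Agent.Q280.RL
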