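import Mathlib
import Pool.Agent.Q64.RL.Stm

set_option autoImplicit false

open Finset MvPolynomial

namespace Pool.Agent.Q280.RL

open Pool.Agent.Q64.RL

theorem dualfun {k ι : Type} [Field k] [Fintype ι] [DecidableEq ι] (f : (ι → k) →ₗ[k] k)
    (w : ι → k) : f w = ∑ i, w i * f (Pi.single i 1) := by
  conv_lhs => rw [← Finset.univ_sum_single w]
  rw [map_sum]
  refine Finset.sum_congr rfl fun i _ => ?_
  have : (Pi.single i (w i) : ι → k) = w i • Pi.single i 1 := by
    ext j
    by_cases h : j = i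
    · subst h; simp
    · simp [Pi.single_eq_of_ne h]
  rw [this, map_smul, smul_eq_mul]

theorem lindep {k V : Type} [Field k] [AddCommGroup V] [Module k V] {ι : Type} [DecidableEq ι]
    (φ : ι → (V →ₗ[k] k)) (ψ : V →ₗ[k] k) (F : Finset ι)
    (h : ∀ v, (∀ i ∈ F, φ i v = 0) → ψ v = 0) :
    ∃ c : ι → k, ∀ v, ψ v = ∑ i ∈ F, c i * φ i v := by
  have h1 : ψ ∈ Submodule.span k (Set.range fun i : {i // i ∈ F} => φ i) := by
    apply mem_span_of_iInf_ker_le_ker
    intro v hv
    rw [LinearMap.mem_ker]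
    apply h
    intro i hi
    have := (Submodule.mem_iInf _).1 hv ⟨i, hi⟩
    simpa using this
  rw [Submodule.mem_span_range_iff_exists_fun] at h1
  obtain ⟨c, hc⟩ := h1
  refine ⟨fun i => if h : i ∈ F then c ⟨i, h⟩ else 0, fun v => ?_⟩
  rw [← hc]
  rw [LinearMap.sum_apply, ← Finset.sum_coe_sort F]
  refine Finset.sum_congr rfl fun i _ => ?_
  simp

theorem sum_split {k ι : Type} [Field k] [Fintype ι] [DecidableEq ι] (e : ι)
    (a : {i // i ≠ e} → k) (c : k) (v : ι → k) :
    ∑ i, v i * (if h : i ≠ e then a ⟨i, h⟩ else c) =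
      v e * c + ∑ i : {i // i ≠ e}, v i * a i := by
  rw [Fintype.sum_eq_add_sum_subtype_ne _ e]
  congr 1
  · simp
  · refine Finset.sum_congr rfl fun i _ => ?_
    rw [dif_pos i.2]

theorem perp : S_perp := by
  intro k ι _ _ _ L
  refine ⟨?_, ?_, ?_, ?_⟩
  · intro v hv
    by_contra hvL
    obtain ⟨f, hf, hfL⟩ := Submodule.exists_le_ker_of_notMem hvL
    apply hf
    rw [dualfun f v]
    apply hv
    intro u hu
    rw [← dualfun f u]
    exact hfL hu
  · intro F e h
    obtain ⟨c, hc⟩ := lindep (V := L) (fun i : ι => (LinearMap.proj i : (ι → k) →ₗ[k] k).comp L.subtype)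
      ((LinearMap.proj e : (ι → k) →ₗ[k] k).comp L.subtype) F (by
        intro v hv
        exact h v v.2 hv)
    exact ⟨c, fun v hv => hc ⟨v, hv⟩⟩
  · intro e a ha v hv
    rw [sum_split e a 0 v, mul_zero, zero_add]
    exact ha (fun i => v i) ⟨v, hv, rfl⟩
  · intro e a ha
    let φ : L →ₗ[k] k := ∑ i : {i // i ≠ e},
      a i • ((LinearMap.proj (i : ι) : (ι → k) →ₗ[k] k).comp L.subtype)
    have hφ : ∀ v : L, φ v = ∑ i : {i // i ≠ e}, (v : ι → k) i * a i := by
      intro v
      simp only [φ, LinearMap.sum_apply, LinearMap.smul_apply, LinearMap.comp_apply,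
        Submodule.subtype_apply, LinearMap.proj_apply, smul_eq_mul]
      exact Finset.sum_congr rfl fun i _ => mul_comm _ _
    obtain ⟨c, hc⟩ := lindep (V := L)
      (fun i : ι => (LinearMap.proj i : (ι → k) →ₗ[k] k).comp L.subtype) φ {e} (by
        intro v hv
        have hv' : (v : ι → k) e = 0 := hv e (Finset.mem_singleton_self e)
        rw [hφ]
        refine ha (fun i => (v : ι → k) i) ⟨v, ⟨v.2, ?_⟩, rfl⟩
        simpa using hv')
    refine ⟨- c e, fun v hv => ?_⟩
    rw [sum_split]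
    have h1 := hc ⟨v, hv⟩
    rw [hφ, Finset.sum_singleton] at h1
    simp only [LinearMap.comp_apply, Submodule.subtype_apply, LinearMap.proj_apply] at h1
    rw [h1]
    ring

theorem ext_base {k ι : Type} [Field k] [Fintype ι] [DecidableEq ι] (L : Submodule k (ι → k))
    (F A : Finset ι) (hFA : F ⊆ A) (hF : ∀ u : ι → k, ∃ v ∈ L, ∀ i ∈ F, v i = u i)
    (hA : ∀ v ∈ L, (∀ i ∈ A, v i = 0) → v = 0) :
    ∃ B, F ⊆ B ∧ B ⊆ A ∧ Base L B := by
  classical
  let S : Finset (Finset ι) := (Finset.univ : Finset (Finset ι)).filter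
    (fun B => F ⊆ B ∧ B ⊆ A ∧ ∀ u : ι → k, ∃ v ∈ L, ∀ i ∈ B, v i = u i)
  have hS : S.Nonempty := ⟨F, by simp [S, hFA]; exact hF⟩
  obtain ⟨B, hB, hmax⟩ := Finset.exists_max_image S Finset.card hS
  have hB' := (Finset.mem_filter.1 hB).2
  refine ⟨B, hB'.1, hB'.2.1, ?_, hB'.2.2⟩
  intro v hv hvB
  by_contra hne
  have : ∃ i ∈ A, v i ≠ 0 := by
    by_contra hcon
    push Not at hcon
    exact hne (hA v hv hcon)
  obtain ⟨i, hiA, hi⟩ := this
  have hiB : i ∉ B := fun h => hi (hvB i h)
  have hmem : insert i B ∈ S := by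
    refine Finset.mem_filter.2 ⟨Finset.mem_univ _, hB'.1.trans (Finset.subset_insert _ _),
      Finset.insert_subset hiA hB'.2.1, ?_⟩
    intro u
    obtain ⟨v', hv', h'⟩ := hB'.2.2 u
    refine ⟨v' + ((u i - v' i) / v i) • v, L.add_mem hv' (L.smul_mem _ hv), ?_⟩
    intro j hj
    rcases Finset.mem_insert.1 hj with rfl | hj
    · simp only [Pi.add_apply, Pi.smul_apply, smul_eq_mul]
      field_simp
      ring
    · simp [h' j hj, hvB j hj]
  have := hmax _ hmem
  rw [Finset.card_insert_of_notMem hiB] at this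
  omega

theorem bas : S_bas := by
  intro k ι _ _ _ L o ho
  obtain ⟨v, hv, hvo⟩ := ho
  have h1 : ∀ u : ι → k, ∃ v ∈ L, ∀ i ∈ ({o} : Finset ι), v i = u i := by
    intro u
    refine ⟨(u o / v o) • v, L.smul_mem _ hv, ?_⟩
    intro i hi
    rw [Finset.mem_singleton.1 hi]
    simp [hvo]
  refine ⟨?_, ?_, ?_⟩
  · obtain ⟨B, hB1, _, hB2⟩ := ext_base L {o} Finset.univ (Finset.subset_univ _) h1 (by
      intro v _ h
      ext i
      exact h i (Finset.mem_univ i))
    exact ⟨B, hB2, hB1 (Finset.mem_singleton_self o)⟩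
  · intro e he hne
    obtain ⟨B, hB1, hB3, hB2⟩ := ext_base L {o} (Finset.univ.erase e) (by
        intro i hi
        rw [Finset.mem_singleton.1 hi]
        simp [he.symm]) h1 (by
      intro v hv h
      by_contra hv0
      apply hne
      have hve : v = v e • (Pi.single e 1 : ι → k) := by
        ext i
        by_cases hi : i = e
        · subst hi; simp
        · simp [Pi.single_eq_of_ne hi, h i (by simp [hi])]
      have hve0 : v e ≠ 0 := by
        intro h0
        rw [h0, zero_smul] at hve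
        exact hv0 hve
      have : (Pi.single e 1 : ι → k) = (v e)⁻¹ • v := by
        conv_rhs => rw [hve]
        rw [smul_smul]
        simp [hve0]
      rw [this]
      exact L.smul_mem _ hv)
    exact ⟨B, hB2, hB1 (Finset.mem_singleton_self o), fun h => by simpa using hB3 h⟩
  · rintro e ⟨v', hv', h0, he⟩
    have hoe : o ≠ e := by
      rintro rfl
      exact he h0
    have h2 : ∀ u : ι → k, ∃ v ∈ L, ∀ i ∈ ({o, e} : Finset ι), v i = u i := by
      intro u
      refine ⟨(u o / v o) • v + ((u e - u o / v o * v e) / v' e) • v',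
        L.add_mem (L.smul_mem _ hv) (L.smul_mem _ hv'), ?_⟩
      intro i hi
      rcases Finset.mem_insert.1 hi with rfl | hi
      · simp [h0, hvo]
      · rw [Finset.mem_singleton.1 hi]
        simp only [Pi.add_apply, Pi.smul_apply, smul_eq_mul]
        field_simp
        ring
    obtain ⟨B, hB1, _, hB2⟩ := ext_base L {o, e} Finset.univ (Finset.subset_univ _) h2 (by
      intro v _ h
      ext i
      exact h i (Finset.mem_univ i))
    exact ⟨B, hB2, hB1 (by simp), hB1 (by simp)⟩

end Pool.Agent.Q280.RL
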