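import Mathlib
import Pool.Agent.Q64.RL.Stm

set_option autoImplicit false

open Finset MvPolynomial

namespace Pool.Agent.Q280.RL

open Pool.Agent.Q64.RL

theorem mod : S_bas → S_coo → S_mod := by
  intro hbas hcoo k ι _ _ _ L o ho
  obtain ⟨B, hB, hoB⟩ := (hbas k ι L o ho).1
  obtain ⟨c, hc⟩ := hcoo k ι L B hB
  let R := MvPolynomial {i // i ≠ o} k
  let E := FractionRing R
  let X : {i // i ≠ o} → E := fun i => algebraMap R E (MvPolynomial.X i)
  let x0 : ι → E := fun i => if h : i ≠ o then X ⟨i, h⟩ else 1
  let x : ι → E := fun i => if i ∈ B then x0 i else ∑ j ∈ B, algebraMap k E (c i j) * x0 j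
  let w : ι → E := fun i => if i ∈ B then - ∑ j ∈ Bᶜ, algebraMap k E (c j i) * x0 j else x0 i
  have hxB : ∀ i ∈ B, x i = x0 i := fun i hi => if_pos hi
  have hwB : ∀ i, i ∉ B → w i = x0 i := fun i hi => if_neg hi
  have hX : ∀ i (h : i ≠ o), x0 i = X ⟨i, h⟩ := fun i h => dif_pos h
  refine ⟨E, inferInstance, inferInstance, x, w, ?_, ?_, ?_, ?_, ?_⟩
  · rw [hxB o hoB]
    simp [x0]
  · rw [(hc E x w).1]
    intro j hj
    simp only [x, if_neg hj]
    refine Finset.sum_congr rfl fun i hi => ?_
    rw [if_pos hi]
  · rw [(hc E x w).2]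
    intro i hi
    simp only [w, if_pos hi]
    congr 1
    refine Finset.sum_congr rfl fun j hj => ?_
    rw [if_neg (Finset.mem_compl.1 hj)]
  · rw [eq_top_iff]
    intro z _
    set K := IntermediateField.adjoin k (Set.range x ∪ Set.range w) with hK
    have hXK : ∀ i : {i // i ≠ o}, X i ∈ K := by
      intro i
      rw [← hX i i.2]
      by_cases hi : (i : ι) ∈ B
      · rw [← hxB _ hi]
        exact IntermediateField.subset_adjoin _ _ (Or.inl ⟨_, rfl⟩)
      · rw [← hwB _ hi]
        exact IntermediateField.subset_adjoin _ _ (Or.inr ⟨_, rfl⟩)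
    have hR : ∀ p : R, algebraMap R E p ∈ K := by
      intro p
      induction p using MvPolynomial.induction_on with
      | C a =>
        have : algebraMap R E (MvPolynomial.C a) = algebraMap k E a := by
          rw [IsScalarTower.algebraMap_apply k R E]; rfl
        rw [this]
        exact K.algebraMap_mem a
      | add p q hp hq => rw [map_add]; exact K.add_mem hp hq
      | mul_X p i hp => rw [map_mul]; exact K.mul_mem hp (hXK i)
    obtain ⟨p, q, hq, rfl⟩ := IsFractionRing.div_surjective (A := R) z
    exact K.div_mem (hR p) (hR q)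
  · refine ⟨X, ?_⟩
    have h1 : AlgebraicIndependent k (MvPolynomial.X : {i // i ≠ o} → R) :=
      MvPolynomial.algebraicIndependent_X _ _
    have h2 := h1.map' (f := IsScalarTower.toAlgHom k R E) (by
      exact IsFractionRing.injective R E)
    exact h2

end Pool.Agent.Q280.RL
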