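import Mathlib
import Pool.Agent.Q64.RL.Stm

set_option autoImplicit false

open Finset MvPolynomial

namespace Pool.Agent.Q280.RL

open Pool.Agent.Q64.RL

theorem adjoin_self_top {k E J : Type} [Field k] [Field E] [Algebra k E] (s : J → E)
    (s' : J → IntermediateField.adjoin k (Set.range s)) (hs : ∀ j, (s' j : E) = s j) :
    IntermediateField.adjoin k (Set.range s') = ⊤ := by
  apply IntermediateField.map_injective (IntermediateField.adjoin k (Set.range s)).val
  rw [IntermediateField.adjoin_map, ← Set.range_comp]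
  have h1 : ((IntermediateField.adjoin k (Set.range s)).val ∘ s') = s := by
    funext j
    exact hs j
  rw [h1]
  ext z
  constructor
  · intro hz
    exact ⟨⟨z, hz⟩, trivial, rfl⟩
  · rintro ⟨y, _, rfl⟩
    exact y.2

section

variable {k G : Type} [Field k] [Fintype G] [DecidableEq G] (B : Finset G) (c : G → G → k)

/-- generic point of the linear space -/
noncomputable def gx (i : G) : MvPolynomial G k :=
  if i ∈ B then X i else ∑ j ∈ B, C (c i j) * X j

/-- generic point of the orthogonal space -/
noncomputable def gw (i : G) : MvPolynomial G k :=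
  if i ∈ B then - ∑ j ∈ Bᶜ, C (c j i) * X j else X i

variable {E : Type} [Field E] [Algebra k E] [Algebra (MvPolynomial G k) E]
  [IsScalarTower k (MvPolynomial G k) E]

theorem algC (a : k) : algebraMap (MvPolynomial G k) E (C a) = algebraMap k E a := by
  rw [IsScalarTower.algebraMap_apply k (MvPolynomial G k) E]; rfl

theorem memF (o : G) (hoB : o ∈ B) (F : IntermediateField k E)
    (hZ : algebraMap (MvPolynomial G k) E (X o) ≠ 0)
    (h1 : ∀ i ∈ B, algebraMap (MvPolynomial G k) E (X i) /
      algebraMap (MvPolynomial G k) E (X o) ∈ F)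
    (h2 : ∀ i, i ∉ B → algebraMap (MvPolynomial G k) E (X o) ^ 2 *
      algebraMap (MvPolynomial G k) E (X i) ∈ F) (i : G) :
    algebraMap (MvPolynomial G k) E (gx B c i ^ 2 * gw B c i) ∈ F := by
  have h3 : algebraMap (MvPolynomial G k) E (gx B c i) /
      algebraMap (MvPolynomial G k) E (X o) ∈ F := by
    by_cases hi : i ∈ B
    · rw [gx, if_pos hi]; exact h1 i hi
    · rw [gx, if_neg hi, map_sum, Finset.sum_div]
      refine F.sum_mem fun j hj => ?_
      rw [map_mul, algC, mul_div_assoc]
      exact F.mul_mem (F.algebraMap_mem _) (h1 j hj)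
  have h4 : algebraMap (MvPolynomial G k) E (X o) ^ 2 *
      algebraMap (MvPolynomial G k) E (gw B c i) ∈ F := by
    by_cases hi : i ∈ B
    · rw [gw, if_pos hi, map_neg, map_sum, mul_neg, Finset.mul_sum]
      refine F.neg_mem (F.sum_mem fun j hj => ?_)
      rw [map_mul, algC, mul_left_comm]
      exact F.mul_mem (F.algebraMap_mem _) (h2 j (Finset.mem_compl.1 hj))
    · rw [gw, if_neg hi]; exact h2 i hi
  have h5 : algebraMap (MvPolynomial G k) E (gx B c i ^ 2 * gw B c i) =
      (algebraMap (MvPolynomial G k) E (gx B c i) /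
        algebraMap (MvPolynomial G k) E (X o)) ^ 2 *
      (algebraMap (MvPolynomial G k) E (X o) ^ 2 *
        algebraMap (MvPolynomial G k) E (gw B c i)) := by
    rw [map_mul, map_pow]
    field_simp
  rw [h5]
  exact F.mul_mem (pow_mem h3 2) h4

theorem dep (htrd : S_trd) (o : G) (hoB : o ∈ B) :
    ¬ AlgebraicIndependent k (fun i => gx B c i ^ 2 * gw B c i) := by
  intro hind
  let E := FractionRing (MvPolynomial G k)
  have hinj : Function.Injective (algebraMap (MvPolynomial G k) E) := IsFractionRing.injective _ _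
  have hZ : algebraMap (MvPolynomial G k) E (X o) ≠ 0 := by
    intro h
    apply MvPolynomial.X_ne_zero (R := k) o
    apply hinj
    rw [map_zero]; exact h
  let s : {i // i ≠ o} → E := fun i => if (i : G) ∈ B then
    algebraMap (MvPolynomial G k) E (X (i : G)) / algebraMap (MvPolynomial G k) E (X o) else
      algebraMap (MvPolynomial G k) E (X o) ^ 2 * algebraMap (MvPolynomial G k) E (X (i : G))
  let F := IntermediateField.adjoin k (Set.range s)
  have hs : ∀ i : {i // i ≠ o}, s i ∈ F := fun i => IntermediateField.subset_adjoin _ _ ⟨i, rfl⟩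
  have hF := memF B c (E := E) o hoB F hZ (by
    intro i hi
    by_cases hio : i = o
    · rw [hio, div_self hZ]; exact F.one_mem
    · have := hs ⟨i, hio⟩
      simp only [s, if_pos hi] at this
      exact this) (by
    intro i hi
    have hio : i ≠ o := fun h => hi (h ▸ hoB)
    have := hs ⟨i, hio⟩
    simp only [s, if_neg hi] at this
    exact this)
  have h1 : AlgebraicIndependent k (fun i => (⟨_, hF i⟩ : F)) := by
    rw [← AlgHom.algebraicIndependent_iff F.val F.val.injective]
    have h2 := hind.map' (f := IsScalarTower.toAlgHom k (MvPolynomial G k) E) hinj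
    exact h2
  have h3 := (htrd k F {i // i ≠ o} G (fun i => ⟨s i, hs i⟩) _
    (adjoin_self_top s _ fun _ => rfl) h1).1
  have h4 : Fintype.card {i // i ≠ o} < Fintype.card G := by
    rw [Fintype.card_subtype_compl]
    have : 0 < Fintype.card G := Fintype.card_pos_iff.2 ⟨o⟩
    simp
    omega
  omega

theorem evx {κ : Type} [Field κ] [Algebra k κ] (x w : G → κ)
    (hx' : ∀ j ∉ B, x j = ∑ i ∈ B, algebraMap k κ (c j i) * x i) (i : G) :
    aeval (zf B x w) (gx B c i) = x i := by
  by_cases hi : i ∈ B
  · rw [gx, if_pos hi, aeval_X, zf, if_pos hi]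
  · rw [gx, if_neg hi, map_sum, hx' i hi]
    refine Finset.sum_congr rfl fun j hj => ?_
    rw [map_mul, aeval_X, algHom_C, zf, if_pos hj]

theorem evw {κ : Type} [Field κ] [Algebra k κ] (x w : G → κ)
    (hw' : ∀ i ∈ B, w i = - ∑ j ∈ Bᶜ, algebraMap k κ (c j i) * w j) (i : G) :
    aeval (zf B x w) (gw B c i) = w i := by
  by_cases hi : i ∈ B
  · rw [gw, if_pos hi, map_neg, map_sum, hw' i hi]
    congr 1
    refine Finset.sum_congr rfl fun j hj => ?_
    rw [map_mul, aeval_X, algHom_C, zf, if_neg (Finset.mem_compl.1 hj)]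
  · rw [gw, if_neg hi, aeval_X, zf, if_neg hi]

end

theorem pol : S_trd → S_bas → S_coo → S_pol := by
  intro htrd hbas hcoo k G _ _ _ _ V
  obtain ⟨o⟩ := (inferInstance : Nonempty G)
  by_cases ho : ∃ v ∈ V, v o ≠ 0
  swap
  · push Not at ho
    refine ⟨MvPolynomial.X o, MvPolynomial.X_ne_zero o, ?_⟩
    intro κ _ _ x w hx _
    have h1 := hx (Pi.single o 1) (by
      intro v hv
      rw [Finset.sum_eq_single o]
      · simp [ho v hv]
      · intro j _ hj
        rw [Pi.single_eq_of_ne hj, mul_zero]
      · simp)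
    rw [Finset.sum_eq_single o] at h1
    · rw [Pi.single_eq_same, map_one, one_mul] at h1
      simp [h1]
    · intro j _ hj
      rw [Pi.single_eq_of_ne hj, map_zero, zero_mul]
    · simp
  obtain ⟨B, hB, hoB⟩ := (hbas k G V o ho).1
  obtain ⟨c, hc⟩ := hcoo k G V B hB
  have hQ : ∃ Q : MvPolynomial G k, aeval (fun i => gx B c i ^ 2 * gw B c i) Q = 0 ∧ Q ≠ 0 := by
    by_contra hcon
    push Not at hcon
    apply dep B c htrd o hoB
    rw [algebraicIndependent_iff]
    exact hcon
  obtain ⟨Q, hQ1, hQ0⟩ := hQ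
  refine ⟨Q, hQ0, ?_⟩
  intro κ _ _ x w hx hw
  have hx' := (hc κ x w).1.1 hx
  have hw' := (hc κ x w).2.1 hw
  have h6 := congrArg (aeval (R := k) (zf B x w)) hQ1
  rw [map_zero, comp_aeval_apply] at h6
  rw [← h6]
  congr 2
  funext i
  rw [map_mul, map_pow, evx B c x w hx', evw B c x w hw']

end Pool.Agent.Q280.RL
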