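import Mathlib
import Pool.Agent.Q64.RL.Stm

set_option autoImplicit false

open Finset MvPolynomial

namespace Pool.Agent.Q280.RL

open Pool.Agent.Q64.RL

theorem tra : S_tra := by
  intro ι κ _ _ _ l S
  have h1 : (LinearMap.range (LinearMap.pi l)).map
      (LinearMap.funLeft ℂ ℂ (Subtype.val : {i // i ∈ S} → ι)) =
      LinearMap.range (LinearMap.pi (fun i : {i // i ∈ S} => l i)) := by
    rw [← LinearMap.range_comp]
    rfl
  rw [rk, h1]
  have h2 := LinearMap.finrank_range_add_finrank_ker (LinearMap.pi (fun i : {i // i ∈ S} => l i))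
  have h3 := Subspace.finrank_add_finrank_dualCoannihilator_eq
    (K := ℂ) (V := κ → ℂ) (Submodule.span ℂ (l '' (S : Set ι)))
  have h4 : LinearMap.ker (LinearMap.pi (fun i : {i // i ∈ S} => l i)) =
      (Submodule.span ℂ (l '' (S : Set ι)) : Submodule ℂ (Module.Dual ℂ (κ → ℂ))).dualCoannihilator := by
    ext v
    rw [LinearMap.mem_ker, Submodule.mem_dualCoannihilator]
    constructor
    · intro h φ hφ
      induction hφ using Submodule.span_induction with
      | mem φ hφ =>
        obtain ⟨i, hi, rfl⟩ := hφ
        exact congrFun h ⟨i, hi⟩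
      | zero => simp
      | add a b _ _ ha hb => rw [LinearMap.add_apply, ha, hb, add_zero]
      | smul c a _ ha => rw [LinearMap.smul_apply, ha, smul_zero]
    · intro h
      funext i
      exact h _ (Submodule.subset_span ⟨i, i.2, rfl⟩)
  rw [← h4] at h3
  exact Nat.add_right_cancel (h2.trans h3.symm)

end Pool.Agent.Q280.RL
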