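import Mathlib
import Pool.Agent.Q64.RL.Stm

set_option autoImplicit false

open Finset MvPolynomial

namespace Pool.Agent.Q280.RL

open Pool.Agent.Q64.RL

theorem zfa : S_trd → S_coo → S_zfa := by
  intro htrd hcoo k ι E _ _ _ _ _ L B o x w hB ho hG
  obtain ⟨c, hc⟩ := hcoo k ι L B hB
  have hx := (hc E x w).1.1 hG.hx
  have hw := (hc E x w).2.1 hG.hw
  let K := IntermediateField.adjoin k (Set.range fun i : {i // i ≠ o} => zf B x w i)
  have hz : ∀ i, i ≠ o → zf B x w i ∈ K := fun i hi =>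
    IntermediateField.subset_adjoin _ _ ⟨⟨i, hi⟩, rfl⟩
  have hxB : ∀ i ∈ B, x i ∈ K := by
    intro i hi
    by_cases hio : i = o
    · rw [hio, hG.xo]; exact K.one_mem
    · have := hz i hio
      rwa [zf, if_pos hi] at this
  have hwB : ∀ i, i ∉ B → w i ∈ K := by
    intro i hi
    have hio : i ≠ o := fun h => hi (h ▸ ho)
    have := hz i hio
    rwa [zf, if_neg hi] at this
  have hx' : ∀ i, x i ∈ K := by
    intro i
    by_cases hi : i ∈ B
    · exact hxB i hi
    · rw [hx i hi]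
      exact K.sum_mem fun j hj => K.mul_mem (K.algebraMap_mem _) (hxB j hj)
  have hw' : ∀ i, w i ∈ K := by
    intro i
    by_cases hi : i ∈ B
    · rw [hw i hi]
      exact K.neg_mem (K.sum_mem fun j hj =>
        K.mul_mem (K.algebraMap_mem _) (hwB j (Finset.mem_compl.1 hj)))
    · exact hwB i hi
  have hK : K = ⊤ := by
    rw [eq_top_iff, ← hG.gen, IntermediateField.adjoin_le_iff]
    rintro _ (⟨i, rfl⟩ | ⟨i, rfl⟩)
    · exact hx' i
    · exact hw' i
  obtain ⟨t, ht⟩ := hG.td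
  exact ⟨((htrd k E {i // i ≠ o} {i // i ≠ o} (fun i : {i // i ≠ o} => zf B x w i) t hK ht).2
    rfl).1, hK⟩

end Pool.Agent.Q280.RL
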